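import Pool.Agent.MP_826def_gt.BQ.QA
import Pool.Agent.MP_826def_gt.PD.Spec
import Pool.Agent.MP_826def_gt.PP.Spec

/-! The applications of the descent theorem at an arbitrary prime. -/

namespace Pool.Agent.MP_826def_gt.PQ

open MU Set Topology BQ
open PD (S_Qp S_P1 pw tp)

noncomputable section

variable [C : Fact Core] {p : ℕ}

theorem descent (A : Api) (q : S_Qp) (hp : p.Prime) {a : ℕ → ℕ → UU} (ha : IsFGL a) {X : Type}
    [TopologicalSpace X] [T2Space X] [LocallyCompactSpace X] (R : AddSubgroup (h X))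
    (h1 : ∀ i j, ∀ x ∈ R, act (toPt X) (a i j) x ∈ R) (h2 : ∀ d, ∀ x ∈ R, part d x ∈ R)
    (h3 : ∀ x : h X, p • x ∈ R) (h4 : ∀ e > 0, ∀ x, IsDeg e x → x ∈ R)
    (h5 : (∀ x, IsDeg 0 x → pw x (p - 1) - x ∈ R) → ∀ x, IsDeg 0 x → x ∈ R) (x : h X) :
    x ∈ R := by
  have k : ∀ n : ℕ, ∀ e > -(n : ℤ), ∀ x, IsDeg e x → x ∈ R := by
    intro n
    induction n with
    | zero => simpa using h4
    | succ n ih =>
      intro e he x hx
      by_cases h0 : e > -(n : ℤ)
      · exact ih e h0 x hx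
      obtain rfl : e = -(n : ℤ) := by push_cast at he; omega
      by_cases hn : -(n : ℤ) = 0
      · rw [hn] at hx
        refine h5 (fun y hy => ?_) x hx
        simpa using q p hp a ha X R h1 h2 h3 0 le_rfl h4 y hy
      · have := q p hp a ha X R h1 h2 h3 _ (by omega) ih x hx
        rwa [if_neg hn] at this
  exact all_of A (fun d x hx => k (d.natAbs + 1) d (by omega) x hx) x

theorem pw_line (A : Api) (hp : p.Prime) {T : Type} [TopologicalSpace T] [T2Space T]
    (x : h (T × ℝ)) : pw x (p - 1) = 0 := by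
  obtain ⟨n, hn⟩ : ∃ n, p - 1 = n + 1 := ⟨p - 2, by have := hp.two_le; omega⟩
  rw [hn]
  exact prod_line A _ _

theorem pw_sq (hp : p.Prime) {K : Type} [TopologicalSpace K] [CompactSpace K] [T2Space K]
    (x : h K) : ∃ y, pw x (p - 1) = x * x * y := by
  have e : ∀ n, pw x n = x * x ^ n := fun n => by
    induction n with
    | zero => rw [pow_zero, mul_one]; rfl
    | succ n ih => rw [pw, ← mul_def, ih, pow_succ']
  obtain ⟨n, hn⟩ : ∃ n, p - 1 = n + 1 := ⟨p - 2, by have := hp.two_le; omega⟩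
  exact ⟨x ^ n, by rw [hn, e, pow_succ', mul_assoc]⟩

theorem gen (A : Api) (q : S_Qp) (hp : p.Prime) (gp : S_GP) {a : ℕ → ℕ → UU} (ha : IsFGL a) (u : UU) :
    ∃ c ∈ Subring.closure (range fun q : ℕ × ℕ => a q.1 q.2), ∃ y, u = c + p * y := by
  let R : AddSubgroup UU :=
    { carrier := {u | ∃ c ∈ Subring.closure (range fun q : ℕ × ℕ => a q.1 q.2), ∃ y, u = c + p * y}
      add_mem' := by
        rintro _ _ ⟨c, hc, y, rfl⟩ ⟨c', hc', y', rfl⟩
        exact ⟨c + c', add_mem hc hc', y + y', by ring⟩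
      zero_mem' := ⟨0, zero_mem _, 0, by ring⟩
      neg_mem' := by
        rintro _ ⟨c, hc, y, rfl⟩
        exact ⟨-c, neg_mem hc, -y, by ring⟩ }
  refine descent A q hp ha R ?_ ?_ (fun x => ⟨0, zero_mem _, x, by ring⟩) (fun e he x hx => ?_)
    (fun _ x hx => ?_) u
  · rintro i j _ ⟨c, hc, y, rfl⟩
    have e : pullR (toPt Unit) (a i j) = a i j := pull_id _
    rw [A.act.self, e]
    exact ⟨a i j * c, mul_mem (Subring.subset_closure ⟨(i, j), rfl⟩) hc, a i j * y, by ring⟩
  · rintro d _ ⟨c, hc, y, rfl⟩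
    exact ⟨_, part_closure A ha hc d, part d y, by
      rw [← nsmul_eq_mul, ← nsmul_eq_mul, map_add, map_nsmul]⟩
  · rw [← hx, gp.1 e he]
    exact R.zero_mem
  · obtain ⟨n, hn⟩ := gp.2.2 x
    exact ⟨n, intCast_mem _ n, 0, by rw [← hn, hx, mul_zero, add_zero]⟩

theorem surj (A : Api) (q : S_Qp) (hp : p.Prime) (gp : S_GP) {a : ℕ → ℕ → UU} (ha : IsFGL a)
    (x : h (Unit × ℝ)) : ∃ y, p • y = x := by
  refine descent A q hp ha (nsmulAddMonoidHom p : h (Unit × ℝ) →+ _).range ?_ ?_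
    (fun x => ⟨x, rfl⟩) (fun e he x hx => ?_) (fun H x hx => ?_) x
  · rintro i j _ ⟨y, rfl⟩
    exact ⟨_, (map_nsmul (act (toPt _) (a i j)) p y).symm⟩
  · rintro d _ ⟨y, rfl⟩
    exact ⟨_, (map_nsmul (part d) p y).symm⟩
  · rw [← hx, gp.2.1 e he]
    exact zero_mem _
  · have := H x hx
    rwa [pw_line A hp, zero_sub, neg_mem_iff] at this

/-- The power of the tautological bundle. -/
abbrev xi (p : ℕ) : Bun (CP 2 2) := tp (taut 2 2) p

theorem heul_xi (A : Api) (c : S_CPX) (t : S_P1) {a : ℕ → ℕ → UU} (ha : IsFGL a)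
    (y : H (CP 2 2)) : Heul (xi p) y = Hact (.id _) (eu (taut 2 2)) (p • y) := by
  obtain ⟨-, w, -, -, h1, s, hs⟩ := t a ha (taut 2 2) (A.bun.rk_taut 2 2) p
  have h2 : eu (xi p) = p • eu (taut 2 2) := by
    rw [h1, sub_eq_iff_eq_add.1 hs, mul_add, ← mul_assoc, ← sq, (c 2 2).1, zero_mul, zero_add,
      nsmul_eq_mul, mul_comm]
  have := (A.eul.act (.id _) (xi p)).2 y
  rw [h2, map_nsmul] at this
  exact this.trans (map_nsmul (Hact (.id _) (eu (taut 2 2))) p y).symm

theorem tors_of (A : Api) (c : S_CPX) (t : S_P1) {a : ℕ → ℕ → UU} (ha : IsFGL a)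
    {z : H (CP 2 2)}
    (hz : Heul (xi p) z = 0) : p • Hpull pt z = 0 := by
  have hb := (c 2 2).2 le_rfl (toPt (CP 2 2)) (.id _)
    (Homeomorph.punitProd.{0, 0} (CP 2 2)).symm.isHomeomorph
  obtain ⟨w, rfl⟩ := hb.2 z
  simp only [Fin.sum_univ_two, Fin.val_zero, Fin.val_one, pow_zero, pow_one, map_one] at hz ⊢
  have e1 : ∀ y, Hpull pt (Hact (.id _) (eu (taut 2 2)) y) = 0 := fun y => by
    have := (A.act.base (.id Unit) pt (eu (taut 2 2))).2
    rw [pt_eu A, map_zero] at this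
    rw [(A.act.pull _ _ _).2]
    exact (congrArg (fun φ : AddMonoid.End (H Unit) => φ (Hpull pt y)) this).symm
  have e2 : ∀ y, Hact (.id _) (eu (taut 2 2)) (Hact (.id (CP 2 2)) (eu (taut 2 2)) y) = 0 :=
    fun y => by
      have := map_mul (Hact (.id (CP 2 2))) (eu (taut 2 2)) (eu (taut 2 2))
      rw [← sq, (c 2 2).1, map_zero] at this
      exact (congrArg (fun φ : AddMonoid.End (H (CP 2 2)) => φ y) this).symm
  rw [heul_xi A c t ha, map_nsmul, map_add, e2, add_zero, AddMonoid.End.one_apply, ← map_nsmul,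
    ← map_nsmul] at hz
  rw [map_add, e1, add_zero, AddMonoid.End.one_apply, pt_to A]
  have := @hb.1 ![0, p • w 0] 0 (by
    simp only [Fin.sum_univ_two, Fin.val_zero, Fin.val_one, pow_zero, pow_one, map_one,
      Matrix.cons_val_zero, Matrix.cons_val_one, Pi.zero_apply, map_zero, zero_add]
    exact hz)
  exact congrFun this 1

theorem tors (A : Api) (q : S_Qp) (t : S_P1) (g : S_Gys) (c : S_CPX) (l : S_LES) (gp : S_GP)
    (dg : S_DG) (hp : p.Prime) {a : ℕ → ℕ → UU} (ha : IsFGL a) (w : H Unit) (hw : p • w = 0) :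
    w = 0 := by
  obtain ⟨γ, hγ⟩ := g
  obtain ⟨-, -, x2, x3⟩ := hγ.exact (xi p) _ _ (isSph (xi p))
  let κ : H (Sph (xi p)) →+ H Unit := (Hpull pt).comp (γ (xi p) (sp (xi p)) (st (xi p)))
  have k2 : ∀ y, κ (p • y) = 0 := fun y =>
    (map_nsmul κ p y).trans (tors_of A c t ha (x3.apply_apply_eq_zero y))
  have kd : ∀ d e y, HDeg d e y → HDeg (e - 1) d (κ y) := fun d e y hy => by
    have := hγ.deg (xi p) _ _ 1 (isSph (xi p)) (t a ha _ (A.bun.rk_taut 2 2) p).1 d e y hy
    rw [Nat.cast_one, add_sub_cancel_right] at this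
    exact ⟨(A.deg.pull _ _ _).trans (congrArg _ this.1), (A.deg.pull _ _ _).trans
      (congrArg _ this.2)⟩
  have kl : ∀ u y, κ (Hact (toPt _) u y) = Hact (toPt _) u (κ y) := fun u y =>
    (congrArg (Hpull pt) (hγ.lin (xi p) _ _ (toPt _) (isSph (xi p)) u y)).trans ((A.act.pull _ _ _).2 _)
  let κ1 := (AddMonoidHom.snd _ _).comp (κ.comp (AddMonoidHom.inl _ _))
  let κ2 := (AddMonoidHom.fst _ _).comp (κ.comp (AddMonoidHom.inr _ _))
  have p1 : ∀ y, (κ (y, 0)).1 = 0 := all_of A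
    (R := ((AddMonoidHom.fst _ _).comp (κ.comp (AddMonoidHom.inl _ _))).ker) fun d x hx =>
      (kd d 0 (x, 0) ⟨hx, deg_zero _⟩).1.symm.trans
        (part_ne A (kd d 1 (x, 0) ⟨hx, deg_zero _⟩).1 (by omega))
  have p2 : ∀ y, (κ (0, y)).2 = 0 := all_of A
    (R := ((AddMonoidHom.snd _ _).comp (κ.comp (AddMonoidHom.inr _ _))).ker) fun d x hx =>
      (kd 0 d (0, x) ⟨deg_zero _, hx⟩).2.symm.trans
        (part_ne A (kd 1 d (0, x) ⟨deg_zero _, hx⟩).2 (by omega))
  have d1 : ∀ d x, IsDeg d x → IsDeg (d + 0) (κ1 x) := fun d x hx =>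
    (add_zero d).symm ▸ (kd d 0 (x, 0) ⟨hx, deg_zero _⟩).2
  have d2 : ∀ d x, IsDeg d x → IsDeg (d + -1) (κ2 x) := fun d x hx =>
    (kd 0 d (0, x) ⟨deg_zero _, hx⟩).1
  have t1 : ∀ x, κ1 (p • x) = 0 := fun x => by
    have := congrArg Prod.snd (k2 (x, 0))
    rwa [Prod.smul_mk, smul_zero] at this
  have t2 : ∀ x, κ2 (p • x) = 0 := fun x => by
    have := congrArg Prod.fst (k2 (0, x))
    rwa [Prod.smul_mk, smul_zero] at this
  have r2 : ∀ y, κ2 y = 0 := by
    refine descent A q hp ha κ2.ker (fun i j x hx => ?_) (fun d x hx => ?_) t2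
      (fun e he x hx => ?_) fun H x hx => ?_
    · have := congrArg Prod.fst (kl (a i j) (0, x))
      have e : Hact (toPt (Sph (xi p))) (a i j) (0, x) = (0, act (toPt _) (a i j) x) :=
        Prod.ext (map_zero (act _ _)) rfl
      rw [e] at this
      exact this.trans ((congrArg (act _ _) hx).trans (map_zero _))
    · exact (part_map A κ2 _ d2 d x).symm.trans ((congrArg (part _) hx).trans (map_zero _))
    · have h1 := d2 e x hx
      by_cases h2 : e = 1
      · obtain ⟨n, hn⟩ := gp.2.2 (κ2 x)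
        rw [h2, add_neg_cancel] at h1
        have h3 := t2 x
        rw [map_nsmul, ← h1, hn, nsmul_eq_mul, ← Int.cast_natCast, ← Int.cast_mul] at h3
        obtain rfl : n = 0 := (mul_eq_zero.1 (dg _ h3)).resolve_left (Nat.cast_ne_zero.2 hp.ne_zero)
        exact h1.symm.trans (hn.trans Int.cast_zero)
      · exact h1.symm.trans (gp.1 _ (by omega) _)
    · have := H x hx
      rwa [pw_line A hp, zero_sub, neg_mem_iff] at this
  have r1 : ∀ y, κ1 y = 0 := by
    refine descent A q hp ha κ1.ker (fun i j x hx => ?_) (fun d x hx => ?_) t1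
      (fun e he x hx => ?_) fun H x hx => ?_
    · have := congrArg Prod.snd (kl (a i j) (x, 0))
      have e : Hact (toPt (Sph (xi p))) (a i j) (x, 0) = (act (toPt _) (a i j) x, 0) :=
        Prod.ext rfl (map_zero (act _ _))
      rw [e] at this
      exact this.trans ((congrArg (act _ _) hx).trans (map_zero _))
    · exact (part_map A κ1 _ d1 d x).symm.trans ((congrArg (part _) hx).trans (map_zero _))
    · exact (d1 e x hx).symm.trans (gp.2.1 _ (by omega) _)
    · have n1 : ∀ y, pullR (sm (xi p) pt) y = 0 → κ1 y = 0 := fun y hy => by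
        have := (hγ.nat (xi p) _ _ pt _ _ (sm (xi p) pt) (isSph (xi p)) (isSph _)
          (ContinuousMap.continuous _).isProperMap (fun _ => rfl) fun _ => rfl).2 (y, 0)
        have e : Hpull (sm (xi p) pt) (y, 0) = 0 := Prod.ext hy (map_zero (pull _))
        rw [e, map_zero] at this
        exact (congrArg Prod.snd this).symm
      rcases isEmpty_or_nonempty (Sph ((xi p).pull pt)) with h0 | ⟨⟨v⟩⟩
      · exact n1 x (A.fn.empty _)
      obtain ⟨n, hn⟩ := gp.2.2 (pullR (.const Unit v) (pullR (sm (xi p) pt) x))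
      have e0 : IsDeg 0 (pullR (.const Unit v) (pullR (sm (xi p) pt) x)) :=
        (A.deg.pull _ _ _).trans (congrArg _ ((A.deg.pull _ _ _).trans (congrArg _ hx)))
      have e1 : κ1 1 = 0 := by
        have := congrArg (fun z => (Hpull pt z).2) (x2.apply_apply_eq_zero (1, 0))
        have e : Hpull (sp (xi p)) (1, 0) = (1, 0) :=
          Prod.ext (map_one (pullR (sp (xi p)))) (map_zero (pull _))
        rw [e, map_zero] at this
        exact this
      have e2 : ∀ φ : h (Sph (xi p)) →+ h (Sph (xi p)), φ 1 = 1 → φ n = n := fun φ e => by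
        rw [← zsmul_one, map_zsmul, e]
      have e3 : IsDeg 0 (x - (n : h (Sph (xi p)))) := by
        rw [IsDeg, map_sub, hx, e2 _ (A.deg.one _)]
      have e4 : pullR (sm (xi p) pt) (pw (x - (n : h (Sph (xi p)))) (p - 1)) = 0 := by
        obtain ⟨y, hy⟩ := pw_sq hp (x - (n : h (Sph (xi p))))
        rw [hy, map_mul, map_mul]
        refine mul_eq_zero_of_left (sq_sph A l v (show pullR _ _ = 0 from ?_)) _
        rw [map_sub, map_sub, map_intCast, map_intCast, ← hn, e0, sub_self]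
      have e5 : κ1 (pw (x - (n : h (Sph (xi p)))) (p - 1) - (x - (n : h (Sph (xi p))))) = 0 := H _ e3
      rw [map_sub, n1 _ e4, zero_sub, neg_eq_zero, map_sub, ← zsmul_one, map_zsmul, e1, smul_zero,
        sub_zero] at e5
      exact e5
  obtain ⟨y, hy⟩ := (x3 (Hpull (toPt _) w)).1 (by
    rw [heul_xi A c t ha, ← map_nsmul, hw, map_zero, map_zero])
  have e : κ y = w := (congrArg (Hpull pt) hy).trans (pt_to A w)
  rw [← e, ← Prod.fst_add_snd y, map_add]
  exact Prod.ext ((congrArg₂ (· + ·) (p1 _) (r2 _)).trans (add_zero _))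
    ((congrArg₂ (· + ·) (r1 _) (p2 _)).trans (add_zero _))

theorem qa (A : Api) (q : S_Qp) (t : S_P1) (g : S_Gys) (c : S_CPX) (l : S_LES) (gp : S_GP)
    (dg : S_DG) : PP.S_QA := fun a ha p hp =>
  ⟨gen A q hp gp ha, fun u hu => congrArg Prod.fst (tors A q t g c l gp dg hp ha (u, 0)
    (Prod.ext ((nsmul_eq_mul p u).trans hu) (nsmul_zero p))), fun x y e => sub_eq_zero.1
      (congrArg Prod.snd (tors A q t g c l gp dg hp ha (0, x - y) (Prod.ext (nsmul_zero p) (by
        have e : p • x = p • y := e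
        show p • (x - y) = 0
        rw [smul_sub, e, sub_self])))), surj A q hp gp ha⟩

end

end Pool.Agent.MP_826def_gt.PQ
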